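import Mathlib
import Pool.Agent.H19.LS.Cnt

/-!
# [AS3] MP_8923e7_nt, limit laws at all scales: from counts of windows to lower density, at all scales

A scale is a pair `(M, t)`, `t ≤ 1`, with `t log M` large: the primes `p_n`, `n < M`, are looked at at the scale
`t log p_n`.
* `LowerS D P`: `P t n` for at least `d t ^ D M` of the `n < M`, for all scales with `t log M ≥ B`.
* `Scales A`: `A` contains scales with `t log M` arbitrarily large.
* `PosAlongS D A P`: the scales of `A` at which `P t n` for at least `d t ^ D M` of the `n < M` are `Scales`.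
-/

set_option autoImplicit false

namespace Pool.Agent.H19.AS

open Finset Filter

/-- `P t n` for at least `d t ^ D M` of the `n < M`, at all large scales -/
def LowerS (D : ℕ) (P : ℝ → ℕ → Prop) : Prop :=
  ∃ d B : ℝ, 0 < d ∧ ∀ (M : ℕ) (t : ℝ), t ≤ 1 → B ≤ t * Real.log M →
    d * t ^ D * M ≤ ({n : ℕ | n < M ∧ P t n}.ncard : ℝ)

/-- scales `(M, t)` with `t ≤ 1` and `t log M` arbitrarily large -/
def Scales (A : Set (ℕ × ℝ)) : Prop :=
  ∀ B : ℝ, ∃ a ∈ A, a.2 ≤ 1 ∧ B ≤ a.2 * Real.log a.1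

/-- `P` holds with positive frequency along the scales `A` -/
def PosAlongS (D : ℕ) (A : Set (ℕ × ℝ)) (P : ℝ → ℕ → Prop) : Prop :=
  ∃ d : ℝ, 0 < d ∧
    Scales {a | a ∈ A ∧ d * a.2 ^ D * a.1 ≤ ({n : ℕ | n < a.1 ∧ P a.2 n}.ncard : ℝ)}

private theorem cnt_pc : ∃ C : ℝ, 0 < C ∧ ∀ X : ℕ, 2 ≤ X →
    (Nat.primeCounting X : ℝ) ≤ C * X / Real.log X := by
  obtain ⟨C, hC, h⟩ := Pool.Agent.H5.Short.pi_le
  refine ⟨C, hC, fun X hX => ?_⟩
  have h1 := h X hX
  have e : ((Icc 1 X).filter Nat.Prime).card = Nat.primeCounting X := by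
    rw [Nat.primeCounting, Nat.primeCounting', Nat.count_eq_card_filter_range]
    congr 1
    ext p
    simp only [mem_filter, mem_Icc, mem_range]
    constructor
    · rintro ⟨⟨_, h2⟩, h3⟩
      exact ⟨by omega, h3⟩
    · rintro ⟨h1, h2⟩
      exact ⟨⟨h2.one_lt.le, by omega⟩, h2⟩
  rw [e] at h1
  exact h1

/-- `log x ≤ K x` for large `x` -/
private theorem log_small (K : ℝ) (hK : 0 < K) : ∀ᶠ x : ℝ in atTop, Real.log x ≤ K * x := by
  have h1 := Real.isLittleO_log_id_atTop.def hK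
  filter_upwards [h1, eventually_ge_atTop (1 : ℝ)] with x hx hx1
  rw [Real.norm_of_nonneg (Real.log_nonneg hx1), id, Real.norm_of_nonneg (by linarith)] at hx
  exact hx

/-- **from windows to lower density at all scales** -/
theorem lower_of_windowsS (D : ℕ) (P : ℝ → ℕ → Prop) (T lam del H0 : ℝ) (hT : 1 ≤ T) (hl : 0 ≤ lam)
    (hd : 0 < del)
    (h : ∀ᶠ x : ℝ in atTop, ∀ t : ℝ, 0 < t → t ≤ 1 → H0 ≤ t * Real.log x →
      ∃ S : Finset ℕ, del * t ^ D * x ≤ S.card ∧ ∀ N ∈ S, (N : ℝ) ≤ T * x ∧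
        ∃ n, P t n ∧ N ≤ Nat.nth Nat.Prime n ∧ (Nat.nth Nat.Prime n : ℝ) ≤ N + lam * Real.log x) :
    LowerS D P := by
  obtain ⟨C, hC, hpc⟩ := cnt_pc
  obtain ⟨κ, hκ⟩ : ∃ κ : ℝ, κ = 1 / (4 * C * T) := ⟨_, rfl⟩
  have hT0 : 0 < T := by linarith
  have hκ0 : 0 < κ := by rw [hκ]; positivity
  have hCT : 4 * C * T * κ = 1 := by rw [hκ]; field_simp
  -- the scale
  have hlogM : Tendsto (fun M : ℕ => Real.log (M : ℝ)) atTop atTop :=
    Real.tendsto_log_atTop.comp tendsto_natCast_atTop_atTop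
  have hx : Tendsto (fun M : ℕ => κ * (M * Real.log (M : ℝ))) atTop atTop :=
    (tendsto_natCast_atTop_atTop.atTop_mul_atTop₀ hlogM).const_mul_atTop hκ0
  have hls : ∀ᶠ x : ℝ in atTop, lam * Real.log x ≤ T * x := by
    filter_upwards [log_small (1 / (lam + 1)) (by positivity), eventually_ge_atTop (1 : ℝ)]
      with x h1 h2
    have h3 : lam * Real.log x ≤ lam * (1 / (lam + 1) * x) := mul_le_mul_of_nonneg_left h1 hl
    have h4 : lam * (1 / (lam + 1) * x) ≤ 1 * x := by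
      rw [← mul_assoc]
      refine mul_le_mul_of_nonneg_right ?_ (by linarith)
      rw [mul_one_div, div_le_one (by positivity)]
      linarith
    nlinarith
  have hM1 : ∀ᶠ M : ℕ in atTop, κ * Real.log (M : ℝ) ≤ M := by
    have h1 := tendsto_natCast_atTop_atTop.eventually (log_small (1 / κ) (by positivity))
    filter_upwards [h1] with M hM
    have h2 := mul_le_mul_of_nonneg_left hM hκ0.le
    rwa [← mul_assoc, mul_one_div_cancel hκ0.ne', one_mul] at h2
  have hev := (hx.eventually h).and ((hx.eventually hls).and (hM1.and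
    ((hlogM.eventually_ge_atTop 1).and ((hlogM.eventually_ge_atTop (1 / κ)).and
    ((hx.eventually_ge_atTop 2).and ((eventually_ge_atTop 2).and
    (hlogM.eventually_ge_atTop (1 / (T * κ)))))))))
  obtain ⟨M1, hM1⟩ := eventually_atTop.1 hev
  refine ⟨del * κ / (2 * lam + 1), max 1 (max H0 (Real.log ((M1 : ℝ) + 1))), by positivity,
    fun M t ht hB => ?_⟩
  have hB1 : 1 ≤ t * Real.log M := (le_max_left _ _).trans hB
  have hB2 : H0 ≤ t * Real.log M := ((le_max_left _ _).trans (le_max_right _ _)).trans hB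
  have hB3 : Real.log ((M1 : ℝ) + 1) ≤ t * Real.log M :=
    ((le_max_right _ _).trans (le_max_right _ _)).trans hB
  have hlM0 : 0 ≤ Real.log (M : ℝ) := Real.log_natCast_nonneg M
  have ht0 : 0 < t := by
    by_contra hcon
    push Not at hcon
    have := mul_nonpos_of_nonpos_of_nonneg hcon hlM0
    linarith
  have htl : t * Real.log M ≤ Real.log M := by
    have := mul_le_mul_of_nonneg_right ht hlM0
    linarith
  have hMM : M1 ≤ M := by
    have h1 : Real.log ((M1 : ℝ) + 1) ≤ Real.log M := hB3.trans htl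
    have hM0 : (0 : ℝ) < M := by
      by_contra hcon
      have h2 : (M : ℝ) = 0 := le_antisymm (not_lt.1 hcon) (Nat.cast_nonneg M)
      rw [h2, Real.log_zero, mul_zero] at hB1
      linarith
    have h2 : (M1 : ℝ) + 1 ≤ M := (Real.log_le_log_iff (by positivity) hM0).1 h1
    have h3 : ((M1 + 1 : ℕ) : ℝ) ≤ M := by
      push_cast
      exact h2
    have h4 : M1 + 1 ≤ M := by exact_mod_cast h3
    omega
  obtain ⟨hM1, hM2, hM3, hM4, hM5, hM6, hM7, hM8⟩ := hM1 M hMM
  obtain ⟨x, hxd⟩ : ∃ x : ℝ, x = κ * (M * Real.log (M : ℝ)) := ⟨_, rfl⟩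
  rw [← hxd] at hM1 hM2 hM6
  have hMr : (2 : ℝ) ≤ M := by exact_mod_cast hM7
  have hlM : 0 < Real.log (M : ℝ) := by linarith
  have hx0 : 0 < x := by linarith
  have hlx0 : 0 ≤ Real.log x := Real.log_nonneg (by linarith)
  -- `log M ≤ log x ≤ 2 log M`
  have hlx : Real.log x ≤ 2 * Real.log (M : ℝ) := by
    have h1 : x ≤ (M : ℝ) ^ 2 := by
      rw [hxd, sq]
      calc κ * (M * Real.log (M : ℝ)) = M * (κ * Real.log (M : ℝ)) := by ring
        _ ≤ M * M := mul_le_mul_of_nonneg_left hM3 (by linarith)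
    have h2 := Real.log_le_log hx0 h1
    rw [Real.log_pow] at h2
    exact_mod_cast h2
  have hxl : Real.log (M : ℝ) ≤ Real.log x := by
    refine Real.log_le_log (by linarith) ?_
    rw [hxd]
    have h1 : 1 ≤ κ * Real.log (M : ℝ) := by
      rw [div_le_iff₀ hκ0] at hM5
      linarith
    calc (M : ℝ) = M * 1 := (mul_one _).symm
      _ ≤ M * (κ * Real.log (M : ℝ)) := mul_le_mul_of_nonneg_left h1 (by linarith)
      _ = κ * (M * Real.log (M : ℝ)) := by ring
  obtain ⟨S, hS1, hS2⟩ := hM1 t ht0 ht (hB2.trans (mul_le_mul_of_nonneg_left hxl ht0.le))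
  -- the number of primes up to `2 T x`
  have hY : ∀ p : ℕ, (p : ℝ) ≤ T * x + lam * Real.log x → p.Prime → Nat.primeCounting p ≤ M := by
    intro p hp _
    obtain ⟨Y, hYd⟩ : ∃ Y : ℕ, Y = ⌊2 * (T * x)⌋₊ := ⟨_, rfl⟩
    have h1 : p ≤ Y := by
      rw [hYd]
      refine Nat.le_floor ?_
      linarith
    have hTx : 0 ≤ 2 * (T * x) := by positivity
    have h2 : (Y : ℝ) ≤ 2 * (T * x) := by rw [hYd]; exact Nat.floor_le hTx
    have h3 : (M : ℝ) ≤ Y := by
      have h4 := Nat.lt_floor_add_one (2 * (T * x))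
      rw [← hYd] at h4
      have h5 : 2 * (T * x) = 2 * (T * κ * Real.log (M : ℝ)) * M := by rw [hxd]; ring
      have h6 : 1 ≤ T * κ * Real.log (M : ℝ) := by
        rw [div_le_iff₀ (by positivity)] at hM8
        linarith
      have h7 : 2 * (M : ℝ) ≤ 2 * (T * x) := by
        rw [h5]
        nlinarith
      linarith
    have h4 : (2 : ℕ) ≤ Y := by
      have : M ≤ Y := by exact_mod_cast h3
      omega
    have h5 := hpc Y h4
    have h6 : (Nat.primeCounting p : ℝ) ≤ Nat.primeCounting Y := by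
      exact_mod_cast Nat.monotone_primeCounting h1
    have h7 : Real.log (M : ℝ) ≤ Real.log (Y : ℝ) := Real.log_le_log (by linarith) h3
    have h8 : C * Y / Real.log (Y : ℝ) ≤ M := by
      rw [div_le_iff₀ (by linarith)]
      calc C * (Y : ℝ) ≤ C * (2 * (T * x)) := mul_le_mul_of_nonneg_left h2 hC.le
        _ = (4 * C * T * κ) * (M * Real.log (M : ℝ)) / 2 := by rw [hxd]; ring
        _ = M * Real.log (M : ℝ) / 2 := by rw [hCT, one_mul]
        _ ≤ M * Real.log (M : ℝ) := by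
            have : 0 ≤ (M : ℝ) * Real.log (M : ℝ) := by positivity
            linarith
        _ ≤ M * Real.log (Y : ℝ) := mul_le_mul_of_nonneg_left h7 (by linarith)
    have h9 : (Nat.primeCounting p : ℝ) ≤ M := by linarith
    exact_mod_cast h9
  have hcs := Pool.Agent.H19.LS.count_scale (P t) M (mul_nonneg hl hlx0) hY S hS2
  -- conclusion
  obtain ⟨R, hR⟩ : ∃ R : ℝ, R = ({n : ℕ | n < M ∧ P t n}.ncard : ℝ) := ⟨_, rfl⟩
  rw [← hR] at hcs ⊢
  have hR0 : 0 ≤ R := by rw [hR]; positivity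
  have h1 : lam * Real.log x + 1 ≤ (2 * lam + 1) * Real.log (M : ℝ) := by
    have h2 : lam * Real.log x ≤ lam * (2 * Real.log (M : ℝ)) := mul_le_mul_of_nonneg_left hlx hl
    nlinarith
  have h2 : del * t ^ D * x ≤ R * ((2 * lam + 1) * Real.log (M : ℝ)) :=
    (hS1.trans hcs).trans (mul_le_mul_of_nonneg_left h1 hR0)
  have h3 : del * κ * t ^ D * M * Real.log (M : ℝ) ≤ R * (2 * lam + 1) * Real.log (M : ℝ) := by
    calc del * κ * t ^ D * M * Real.log (M : ℝ) = del * t ^ D * x := by rw [hxd]; ring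
      _ ≤ R * ((2 * lam + 1) * Real.log (M : ℝ)) := h2
      _ = R * (2 * lam + 1) * Real.log (M : ℝ) := by ring
  have h4 : del * κ * t ^ D * M ≤ R * (2 * lam + 1) := le_of_mul_le_mul_right h3 hlM
  calc del * κ / (2 * lam + 1) * t ^ D * M = del * κ * t ^ D * M / (2 * lam + 1) := by ring
    _ ≤ R := by rw [div_le_iff₀ (by linarith)]; exact h4

/-- **a finite union at all scales** -/
theorem union_alongS {ι : Type} (D : ℕ) (A : Set (ℕ × ℝ)) (hA : Scales A) (S : Finset ι)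
    (P : ι → ℝ → ℕ → Prop) (h : LowerS D (fun t n => ∃ i ∈ S, P i t n)) :
    ∃ i ∈ S, PosAlongS D A (P i) := by
  classical
  by_contra hcon
  push Not at hcon
  obtain ⟨d, B, hd, h⟩ := h
  have h1 : ∀ i : ι, ∃ Bi : ℝ, i ∈ S → ∀ a ∈ A, a.2 ≤ 1 → Bi ≤ a.2 * Real.log a.1 →
      ({n : ℕ | n < a.1 ∧ P i a.2 n}.ncard : ℝ) < d / (S.card + 1) * a.2 ^ D * a.1 := by
    intro i
    by_cases hi : i ∈ S
    · have h2 := hcon i hi
      unfold PosAlongS at h2
      push Not at h2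
      have h3 := h2 (d / (S.card + 1)) (by positivity)
      unfold Scales at h3
      push Not at h3
      obtain ⟨Bi, hBi⟩ := h3
      refine ⟨Bi, fun _ a ha ha1 ha2 => ?_⟩
      by_contra h4
      exact absurd ha2 (not_le.2 (hBi a ⟨ha, not_lt.1 h4⟩ ha1))
    · exact ⟨0, fun h => absurd h hi⟩
  choose Bi hBi using h1
  obtain ⟨a, haA, ha1, ha2⟩ := hA (max (max 1 B) (∑ i ∈ S, |Bi i|))
  have hB1 : 1 ≤ a.2 * Real.log a.1 := ((le_max_left _ _).trans (le_max_left _ _)).trans ha2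
  have hBB : B ≤ a.2 * Real.log a.1 := ((le_max_right _ _).trans (le_max_left _ _)).trans ha2
  have hBs : ∀ i ∈ S, Bi i ≤ a.2 * Real.log a.1 := by
    intro i hi
    refine (le_abs_self _).trans (le_trans ?_ ((le_max_right _ _).trans ha2))
    exact Finset.single_le_sum (f := fun i => |Bi i|) (fun j _ => abs_nonneg _) hi
  have hlM0 : 0 ≤ Real.log (a.1 : ℝ) := Real.log_natCast_nonneg _
  have ht0 : 0 < a.2 := by
    by_contra hcon
    push Not at hcon
    have := mul_nonpos_of_nonpos_of_nonneg hcon hlM0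
    linarith
  have hM0 : (0 : ℝ) < a.1 := by
    by_contra hcon
    have h2 : (a.1 : ℝ) = 0 := le_antisymm (not_lt.1 hcon) (Nat.cast_nonneg _)
    rw [h2, Real.log_zero, mul_zero] at hB1
    linarith
  have hM1 := h a.1 a.2 ha1 hBB
  have hfin : ∀ i, ({n : ℕ | n < a.1 ∧ P i a.2 n}).Finite := fun i =>
    (Set.finite_lt_nat a.1).subset fun n hn => hn.1
  have h3 : ({n : ℕ | n < a.1 ∧ ∃ i ∈ S, P i a.2 n}).ncard ≤
      ∑ i ∈ S, ({n : ℕ | n < a.1 ∧ P i a.2 n}).ncard := by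
    have e1 : {n : ℕ | n < a.1 ∧ ∃ i ∈ S, P i a.2 n} =
        ((S.biUnion fun i => (hfin i).toFinset : Finset ℕ) : Set ℕ) := by
      ext n
      simp only [Set.mem_ofPred_eq, coe_biUnion, Set.mem_iUnion, Set.Finite.coe_toFinset,
        Finset.mem_coe, exists_prop]
      constructor
      · rintro ⟨h1, i, h2, h3⟩
        exact ⟨i, h2, h1, h3⟩
      · rintro ⟨i, h2, h1, h3⟩
        exact ⟨h1, i, h2, h3⟩
    rw [e1, Set.ncard_coe_finset]
    refine card_biUnion_le.trans (le_of_eq (Finset.sum_congr rfl fun i _ => ?_))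
    rw [Set.ncard_eq_toFinset_card _ (hfin i)]
  have h4 : (({n : ℕ | n < a.1 ∧ ∃ i ∈ S, P i a.2 n}).ncard : ℝ) ≤
      ∑ i ∈ S, (({n : ℕ | n < a.1 ∧ P i a.2 n}).ncard : ℝ) := by exact_mod_cast h3
  have h5 : ∑ i ∈ S, (({n : ℕ | n < a.1 ∧ P i a.2 n}).ncard : ℝ) ≤
      ∑ i ∈ S, d / (S.card + 1) * a.2 ^ D * a.1 :=
    Finset.sum_le_sum fun i hi => (hBi i hi a haA ha1 (hBs i hi)).le
  rw [Finset.sum_const, nsmul_eq_mul] at h5
  have h6 : (S.card : ℝ) * (d / (S.card + 1) * a.2 ^ D * a.1) =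
      d * a.2 ^ D * a.1 - d / (S.card + 1) * a.2 ^ D * a.1 := by
    field_simp
    ring
  have h7 : 0 < d / (S.card + 1) * a.2 ^ D * a.1 := by positivity
  linarith

end Pool.Agent.H19.AS
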